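import Pool.Agent.W323.PT.Stm

/-!
Project PT, part HexDir: the hexagon direction from the hexagon pattern.
-/

set_option autoImplicit false

namespace Pool.Agent.W209.PT

open Pool.Agent.W323.PT

theorem o_cyc (a b c : Pt) : o b c a = o a b c := by
  unfold o
  ring

theorem o_swap (a b c : Pt) : o a c b = - o a b c := by
  unfold o
  ring

/-- the circle of 192 positions (natural numbers) -/
def Qn (P : Bool → ℕ → Pt) (u : ℕ) : Pt := if u < 96 then P false u else P true (u - 96)

/-- the circle of 192 positions -/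
def Q (P : Bool → ℕ → Pt) (u : ℤ) : Pt := Qn P (u % 192).toNat

theorem base (P : Bool → ℕ → Pt) (h : Hom 96 P (blk true true true true)) (a b c : ℕ)
    (hab : a < b) (hbc : b < c) (hc : c < 192) (h1 : a % 96 ≠ b % 96) (h2 : a % 96 ≠ c % 96)
    (h3 : b % 96 ≠ c % 96) : 0 < o (Qn P a) (Qn P b) (Qn P c) := by
  have fff : ∀ i j k, i < j → j < k → k < 96 → 0 < o (P false i) (P false j) (P false k) :=
    fun i j k hij hjk hk => (h i j k hij hjk hk false false false).1 rfl
  have tff : ∀ i j k, i < j → j < k → k < 96 → 0 < o (P true i) (P false j) (P false k) :=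
    fun i j k hij hjk hk => (h i j k hij hjk hk true false false).1 rfl
  have ftf : ∀ i j k, i < j → j < k → k < 96 → o (P false i) (P true j) (P false k) < 0 :=
    fun i j k hij hjk hk => (h i j k hij hjk hk false true false).2 rfl
  have fft : ∀ i j k, i < j → j < k → k < 96 → 0 < o (P false i) (P false j) (P true k) :=
    fun i j k hij hjk hk => (h i j k hij hjk hk false false true).1 rfl
  have ftt : ∀ i j k, i < j → j < k → k < 96 → 0 < o (P false i) (P true j) (P true k) :=
    fun i j k hij hjk hk => (h i j k hij hjk hk false true true).1 rfl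
  have tft : ∀ i j k, i < j → j < k → k < 96 → o (P true i) (P false j) (P true k) < 0 :=
    fun i j k hij hjk hk => (h i j k hij hjk hk true false true).2 rfl
  have ttf : ∀ i j k, i < j → j < k → k < 96 → 0 < o (P true i) (P true j) (P false k) :=
    fun i j k hij hjk hk => (h i j k hij hjk hk true true false).1 rfl
  have ttt : ∀ i j k, i < j → j < k → k < 96 → 0 < o (P true i) (P true j) (P true k) :=
    fun i j k hij hjk hk => (h i j k hij hjk hk true true true).1 rfl
  unfold Qn
  by_cases ha : a < 96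
  · rw [if_pos ha]
    by_cases hb : b < 96
    · rw [if_pos hb]
      by_cases hc' : c < 96
      · rw [if_pos hc']
        exact fff a b c hab hbc hc'
      · rw [if_neg hc']
        obtain h4 | h4 | h4 : c - 96 < a ∨ (a < c - 96 ∧ c - 96 < b) ∨ b < c - 96 := by omega
        · rw [← o_cyc, ← o_cyc]
          exact tff _ _ _ h4 hab hb
        · rw [o_swap]
          have := ftf _ _ _ h4.1 h4.2 hb
          linarith
        · exact fft _ _ _ hab h4 (by omega)
    · rw [if_neg hb, if_neg (by omega : ¬ c < 96)]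
      obtain h4 | h4 | h4 : a < b - 96 ∨ (b - 96 < a ∧ a < c - 96) ∨ c - 96 < a := by omega
      · exact ftt _ _ _ h4 (by omega) (by omega)
      · have := tft _ _ _ h4.1 h4.2 (by omega)
        rw [← o_cyc, o_swap]
        have e : o (P true (b - 96)) (P false a) (P true (c - 96))
          = o (P true (b - 96)) (P false a) (P true (c - 96)) := rfl
        linarith
      · rw [← o_cyc]
        exact ttf _ _ _ (by omega) h4 ha
  · rw [if_neg ha, if_neg (by omega : ¬ b < 96), if_neg (by omega : ¬ c < 96)]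
    exact ttt _ _ _ (by omega) (by omega) (by omega)

theorem conv (P : Bool → ℕ → Pt) (h : Hom 96 P (blk true true true true)) (u v w : ℤ)
    (huv : u < v) (hvw : v < w) (hwu : w < u + 192) (h1 : u % 96 ≠ v % 96) (h2 : u % 96 ≠ w % 96)
    (h3 : v % 96 ≠ w % 96) : 0 < o (Q P u) (Q P v) (Q P w) := by
  unfold Q
  obtain h4 | h4 | h4 : ((u % 192).toNat < (v % 192).toNat ∧ (v % 192).toNat < (w % 192).toNat) ∨
      ((v % 192).toNat < (w % 192).toNat ∧ (w % 192).toNat < (u % 192).toNat) ∨
      ((w % 192).toNat < (u % 192).toNat ∧ (u % 192).toNat < (v % 192).toNat) := by omega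
  · exact base P h _ _ _ h4.1 h4.2 (by omega) (by omega) (by omega) (by omega)
  · rw [← o_cyc]
    exact base P h _ _ _ h4.1 h4.2 (by omega) (by omega) (by omega) (by omega)
  · rw [← o_cyc, ← o_cyc]
    exact base P h _ _ _ h4.1 h4.2 (by omega) (by omega) (by omega) (by omega)

/-- the position of the point `TT P u` -/
def q (u : ℤ) : ℤ := if u % 96 < 48 then 2 * u else 2 * u + 1

theorem q_bd (u : ℤ) : 2 * u ≤ q u ∧ q u ≤ 2 * u + 1 ∧ (q u % 96) / 2 = u % 48 := by
  unfold q
  split_ifs with h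
  · omega
  · omega

theorem TT_eq (P : Bool → ℕ → Pt) (u : ℤ) : TT P u = Q P (q u) := by
  unfold TT Q Qn q
  by_cases h : u % 96 < 48
  · rw [if_pos h, if_pos h, if_pos (by omega)]
    congr 1
    omega
  · rw [if_neg h, if_neg h, if_neg (by omega)]
    congr 1
    omega

/-- the letter and the index of `TT P u` -/
def tt (u : ℤ) : Bool × ℕ :=
  if u % 96 < 48 then (false, 2 * (u % 48).toNat) else (true, 2 * (u % 48).toNat + 1)

theorem pt_tt (P : Bool → ℕ → Pt) (u : ℤ) : pt P (tt u) = TT P u := by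
  unfold pt tt TT
  split_ifs <;> rfl

theorem tt_bd (u : ℤ) : (tt u).2 < 96 ∧ (((tt u).2 / 2 : ℕ) : ℤ) = u % 48 := by
  unfold tt
  split_ifs with h
  · simp only
    omega
  · simp only
    omega

theorem tt_ne (u v : ℤ) (h : u % 48 ≠ v % 48) : (tt u).2 ≠ (tt v).2 := by
  intro e
  have h1 := (tt_bd u).2
  have h2 := (tt_bd v).2
  rw [e] at h1
  omega

/-- the point with letter `b` and index `2 * (s % 48)` is in `Q` at `2 * s` or `2 * s + 96` -/
theorem Q_s (P : Bool → ℕ → Pt) (b : Bool) (s : ℤ) :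
    ∃ p : ℤ, (p = 2 * s ∨ p = 2 * s + 96) ∧ P b (2 * (s % 48).toNat) = Q P p := by
  by_cases h : s % 96 < 48
  · cases b
    · refine ⟨2 * s, Or.inl rfl, ?_⟩
      unfold Q Qn
      rw [if_pos (by omega)]
      congr 1
      omega
    · refine ⟨2 * s + 96, Or.inr rfl, ?_⟩
      unfold Q Qn
      rw [if_neg (by omega)]
      congr 1
      omega
  · cases b
    · refine ⟨2 * s + 96, Or.inr rfl, ?_⟩
      unfold Q Qn
      rw [if_pos (by omega)]
      congr 1
      omega
    · refine ⟨2 * s, Or.inl rfl, ?_⟩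
      unfold Q Qn
      rw [if_neg (by omega)]
      congr 1
      omega

/-- thirteen points in convex position -/
theorem list13 (P : Bool → ℕ → Pt) (h : Hom 96 P (blk true true true true)) (u : Fin 13 → ℤ)
    (pos : Fin 13 → ℤ) (hu : StrictMono u) (h12 : u 12 ≤ u 0 + 46)
    (hpos : ∀ i, i ≠ 12 → pos i = q (u i)) (hp : pos 12 = 2 * u 12 ∨ pos 12 = 2 * u 12 + 96)
    (i j k : Fin 13) (hij : i < j) (hjk : j < k) : 0 < o (Q P (pos i)) (Q P (pos j)) (Q P (pos k)) := by
  have key : ∀ i : Fin 13, 2 * u i ≤ pos i ∧ (pos i % 96) / 2 = u i % 48 ∧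
      (i ≠ 12 → pos i ≤ 2 * u i + 1) ∧ pos i ≤ 2 * u i + 96 := by
    intro i
    by_cases hi : i = 12
    · subst hi
      refine ⟨by omega, ?_, fun h => absurd rfl h, by omega⟩
      obtain e | e := hp
      · rw [e]
        omega
      · rw [e]
        omega
    · have := q_bd (u i)
      rw [hpos i hi]
      omega
  have hlo : ∀ i : Fin 13, u 0 ≤ u i := fun i => hu.monotone (Fin.zero_le i)
  have hhi : ∀ i : Fin 13, u i ≤ u 12 := fun i => hu.monotone (by
    have := i.isLt
    exact Fin.le_iff_val_le_val.2 (by simp; omega))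
  have hi12 : i ≠ 12 := by
    rintro rfl
    have := j.isLt
    have h5 : (12 : Fin 13).val < j.val := hij
    simp at h5
    omega
  have hj12 : j ≠ 12 := by
    rintro rfl
    have := k.isLt
    have h5 : (12 : Fin 13).val < k.val := hjk
    simp at h5
    omega
  have u1 := hu hij
  have u2 := hu hjk
  have ki := key i
  have kj := key j
  have kk := key k
  have ki3 := ki.2.2.1 hi12
  have kj3 := kj.2.2.1 hj12
  have l1 := hlo i
  have l2 := hhi k
  exact conv P h _ _ _ (by omega) (by omega) (by omega) (by omega) (by omega) (by omega)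

theorem hexdir : S_Hex → S_Conv → S_HexDir := by
  intro hHex _ P hP t1 t2 t3 t4 t5 t6 h12 h23 h34 h45 h56 h61
  by_cases hD : 0 < D (TT P (4 * t1)) (TT P (4 * t2)) (TT P (4 * t3)) (TT P (4 * t4)) (TT P (4 * t5))
      (TT P (4 * t6))
  · exact Or.inr hD
  refine Or.inl ?_
  rw [not_lt] at hD
  set s : ℤ := 4 * t6 + 2 with hs
  let u : Fin 13 → ℤ := ![4 * t1, 4 * t2, 4 * t2 + 1, 4 * t2 + 2, 4 * t2 + 3, 4 * t3, 4 * t4,
    4 * t5 - 3, 4 * t5 - 2, 4 * t5 - 1, 4 * t5, 4 * t6, s]
  have hu : StrictMono u := by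
    rw [Fin.strictMono_iff_lt_succ]
    intro i
    fin_cases i <;> simp [u] <;> omega
  have hu12 : u 12 ≤ u 0 + 46 := by
    simp [u]
    omega
  have hlist : ∀ (b : Bool) (L : Fin 13 → Pt), L = ![TT P (4 * t1), TT P (4 * t2), TT P (4 * t2 + 1),
      TT P (4 * t2 + 2), TT P (4 * t2 + 3), TT P (4 * t3), TT P (4 * t4), TT P (4 * t5 - 3),
      TT P (4 * t5 - 2), TT P (4 * t5 - 1), TT P (4 * t5), TT P (4 * t6), P b (2 * (s % 48).toNat)] →
      ∀ i j k, i < j → j < k → 0 < o (L i) (L j) (L k) := by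
    intro b L hL i j k hij hjk
    obtain ⟨p, hp, e⟩ := Q_s P b s
    let pos : Fin 13 → ℤ := fun i => if i = 12 then p else q (u i)
    have hLp : ∀ i, L i = Q P (pos i) := by
      intro i
      rw [hL]
      fin_cases i <;> simp [pos, u, TT_eq, e]
    rw [hLp i, hLp j, hLp k]
    refine list13 P hP u pos hu hu12 (fun i hi => if_neg hi) ?_ i j k hij hjk
    simpa [pos, u] using hp
  have pat := hHex (TT P (4 * t1)) (TT P (4 * t2)) (TT P (4 * t2 + 1)) (TT P (4 * t2 + 2))
    (TT P (4 * t2 + 3)) (TT P (4 * t3)) (TT P (4 * t4)) (TT P (4 * t5 - 3)) (TT P (4 * t5 - 2))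
    (TT P (4 * t5 - 1)) (TT P (4 * t5)) (TT P (4 * t6)) (P false (2 * (s % 48).toNat))
    (P true (2 * (s % 48).toNat))
    (fun L hL => hL.elim (hlist false L) (hlist true L)) hD
  refine ⟨![tt (4 * t1), tt (4 * t4), tt (4 * t3), tt (4 * t6), tt (4 * t2 + 1), tt (4 * t2 + 3),
    tt (4 * t5 - 3), tt (4 * t5 - 1)], tt (4 * t2 + 2), tt (4 * t5 - 2), 2 * (s % 48).toNat,
    ?_, (tt_bd _).1, (tt_bd _).1, by omega, ?_, ?_, ?_, ?_, ?_⟩
  · intro l
    fin_cases l <;> exact (tt_bd _).1
  · exact tt_ne _ _ (by omega)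
  · intro e
    have := (tt_bd (4 * t2 + 2)).2
    rw [e] at this
    omega
  · intro e
    have := (tt_bd (4 * t5 - 2)).2
    rw [e] at this
    omega
  · have hz : ∀ v : ℤ, v % 48 ≠ s % 48 → (tt v).2 ≠ 2 * (s % 48).toNat := by
      intro v hv e
      have := (tt_bd v).2
      rw [e] at this
      omega
    intro l
    fin_cases l
    · exact ⟨tt_ne _ _ (by omega), tt_ne _ _ (by omega), hz _ (by omega)⟩
    · exact ⟨tt_ne _ _ (by omega), tt_ne _ _ (by omega), hz _ (by omega)⟩
    · exact ⟨tt_ne _ _ (by omega), tt_ne _ _ (by omega), hz _ (by omega)⟩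
    · exact ⟨tt_ne _ _ (by omega), tt_ne _ _ (by omega), hz _ (by omega)⟩
    · exact ⟨tt_ne _ _ (by omega), tt_ne _ _ (by omega), hz _ (by omega)⟩
    · exact ⟨tt_ne _ _ (by omega), tt_ne _ _ (by omega), hz _ (by omega)⟩
    · exact ⟨tt_ne _ _ (by omega), tt_ne _ _ (by omega), hz _ (by omega)⟩
    · exact ⟨tt_ne _ _ (by omega), tt_ne _ _ (by omega), hz _ (by omega)⟩
  · simp only [pt_tt, Matrix.cons_val]
    exact pat

end Pool.Agent.W209.PT
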